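import Pool.Agent.Helper42.CV.Defs
import Pool.Agent.Helper21.TS.Line
import Pool.Agent.Helper20.DER.Ext

/-!
# CV block C5 (MP_71c16a_nt): a basis of the derivations of `M(y)`

`der_basis`: the partial derivatives of `R = M(y)` for a transcendence basis which is contained in the set of the coordinates; they commute,
they are a basis of the derivations of `R` over `M` (with values in `R` or in `F`), and they extend to `F`.
-/

set_option autoImplicit false

namespace Pool.Agent.CV

open Module

universe u

private theorem der_eq17 {M R V : Type*} [Field M] [CharZero M] [Field R] [Algebra M R] [AddCommGroup V] [Module M V] [Module R V] {m : ℕ}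
    {t : Fin m → R} (ht : IsTranscendenceBasis M t) (D D' : Derivation M R V) (h : ∀ b, D (t b) = D' (t b)) (x : R) : D x = D' x := by
  have h1 := Pool.Agent.Helper21.TS.der_zero_of_algebraic (D - D') (Set.range t) (by
    rintro _ ⟨b, rfl⟩
    rw [Derivation.sub_apply, h, sub_self]) x (ht.isAlgebraic_field.isAlgebraic x)
  rwa [Derivation.sub_apply, sub_eq_zero] at h1

private theorem sum_apply17 {M R V ι : Type*} [Field M] [Field R] [Algebra M R] [AddCommGroup V] [Module M V] [Module R V] (s : Finset ι)
    (f : ι → Derivation M R V) (x : R) : (∑ i ∈ s, f i) x = ∑ i ∈ s, f i x := by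
  classical
  induction s using Finset.induction_on with
  | empty => rfl
  | insert i s hi ih => rw [Finset.sum_insert hi, Finset.sum_insert hi, Derivation.add_apply, ih]

private theorem trbasis17 {M R : Type*} [Field M] [Field R] [Algebra M R] {n : ℕ} (z : Fin n → R)
    (hz : IntermediateField.adjoin M (Set.range z) = ⊤) :
    ∃ (m : ℕ) (t : Fin m → R), IsTranscendenceBasis M t ∧ ∀ b, ∃ c, t b = z c := by
  have halg : Algebra.IsAlgebraic (Algebra.adjoin M (Set.range z)) R := by
    refine ⟨fun x => ?_⟩
    have hx : x ∈ IntermediateField.adjoin M (Set.range z) := by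
      rw [hz]
      exact IntermediateField.mem_top
    induction hx using IntermediateField.adjoin_induction with
    | mem s hs => exact isAlgebraic_algebraMap (⟨s, Algebra.subset_adjoin hs⟩ : Algebra.adjoin M (Set.range z))
    | algebraMap c => exact isAlgebraic_algebraMap (algebraMap M (Algebra.adjoin M (Set.range z)) c)
    | add a b _ _ ha hb => exact ha.add hb
    | inv a _ ha => exact ha.inv
    | mul a b _ _ ha hb => exact ha.mul hb
  obtain ⟨s, -, hs, hb⟩ := exists_isTranscendenceBasis_between (R := M) (∅ : Set R) (Set.range z) (Set.empty_subset _) (by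
    exact algebraicIndependent_empty_type)
  have hfin : Finite s := (Set.finite_range z).subset hs
  obtain ⟨m, ⟨e⟩⟩ := Finite.exists_equiv_fin s
  refine ⟨m, fun b => (e.symm b : R), hb.comp_equiv e.symm, fun b => ?_⟩
  obtain ⟨c, hc⟩ := hs (e.symm b).2
  exact ⟨c, hc.symm⟩

theorem der_basis {M F : Type u} [Field M] [CharZero M] [Field F] [Algebra M F] {N : ℕ} (y : Fin (N + 1) → F) :
    ∃ (m : ℕ) (d : Fin m → Derivation M (IntermediateField.adjoin M (Set.range y)) (IntermediateField.adjoin M (Set.range y)))
      (t : Fin m → IntermediateField.adjoin M (Set.range y)) (η : Fin m → Derivation M F F), (∀ b c x, d b (d c x) = d c (d b x)) ∧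
      (∀ D : Derivation M (IntermediateField.adjoin M (Set.range y)) (IntermediateField.adjoin M (Set.range y)), ∀ x,
        D x = ∑ b, D (t b) * d b x) ∧
      (∀ D : Derivation M (IntermediateField.adjoin M (Set.range y)) F, ∀ x, D x = ∑ b, D (t b) * (d b x : F)) ∧
      (∀ b (x : IntermediateField.adjoin M (Set.range y)), η b x = d b x) ∧ LinearIndependent F fun b => fun c => η b (y c) := by
  classical
  obtain ⟨R, hR⟩ : ∃ R, R = IntermediateField.adjoin M (Set.range y) := ⟨_, rfl⟩
  have hyR : ∀ c, y c ∈ R := fun c => by
    rw [hR]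
    exact IntermediateField.subset_adjoin M _ ⟨c, rfl⟩
  rw [← hR]
  obtain ⟨m, t, ht, htc⟩ := trbasis17 (M := M) (R := R) (fun c => (⟨y c, hyR c⟩ : R)) (by
    apply IntermediateField.map_injective R.val
    rw [← AlgHom.fieldRange_eq_map, IntermediateField.fieldRange_val, IntermediateField.adjoin_map, ← Set.range_comp]
    exact hR.symm)
  choose d hd using fun b : Fin m => Pool.Agent.Helper20.DER.exists_derivation_of_basis ht (Pi.single b 1 : Fin m → R)
  choose η hη using fun b : Fin m => Pool.Agent.Helper20.DER.extend_derivation (k0 := M) (M := R) (F := F) (d b)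
  have hd' : ∀ b c, d b (t c) = if c = b then 1 else 0 := fun b c => by rw [hd, Pi.single_apply]
  refine ⟨m, d, t, η, fun b c x => ?_, fun D x => ?_, fun D x => ?_, fun b x => hη b x, ?_⟩
  · have h1 := der_eq17 ht ⁅d b, d c⁆ 0 (fun a => by
      rw [Derivation.commutator_apply, hd', hd', Derivation.zero_apply]
      split_ifs <;> simp) x
    rwa [Derivation.commutator_apply, Derivation.zero_apply, sub_eq_zero] at h1
  · have h1 := der_eq17 ht D (∑ b, D (t b) • d b) (fun a => by
      simp [sum_apply17, hd']) x
    rw [h1]
    simp [sum_apply17]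
  · let g : Fin m → (F →ₗ[R] F) := fun b => LinearMap.mulLeft R (D (t b))
    let f : Fin m → Derivation M R F := fun b => (g b ∘ₗ Algebra.linearMap R F).compDer (d b)
    have hf : ∀ b z, f b z = D (t b) * (d b z : F) := fun b z => rfl
    have hc : ∀ a b : Fin m, (((if a = b then 1 else 0 : R)) : F) = if a = b then 1 else 0 := fun a b => by
      split_ifs <;> simp
    have h1 := der_eq17 ht D (∑ b, f b) (fun a => by
      simp only [sum_apply17, hf, hd', hc, mul_ite, mul_one, mul_zero, Finset.sum_ite_eq, Finset.mem_univ, if_true]) x
    rw [h1]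
    simp [sum_apply17, hf]
  · choose c hc using htc
    rw [Fintype.linearIndependent_iff]
    intro g hg b
    have h1 := congrFun hg (c b)
    rw [Finset.sum_apply] at h1
    have h2 : ∀ b', η b' (y (c b)) = if b = b' then 1 else 0 := by
      intro b'
      have h3 : y (c b) = algebraMap R F (t b) := by rw [hc b]; rfl
      rw [h3, hη, hd']
      split_ifs <;> simp
    simpa [h2] using h1

end Pool.Agent.CV
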