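import Mathlib

/-!
# CV block C7a (MP_71c16a_nt): integral vectors which are independent over the integers are independent over every field of characteristic zero
-/

set_option autoImplicit false

namespace Pool.Agent.CV

theorem int_li {K : Type*} [Field K] [CharZero K] {ρ q : ℕ} (a : Fin ρ → Fin q → ℤ) (ha : LinearIndependent ℤ a) :
    LinearIndependent K fun s => fun i => (a s i : K) := by
  classical
  have h1 : LinearIndependent ℤ fun s => fun i => (a s i : ℚ) := by
    rw [Fintype.linearIndependent_iff] at ha ⊢
    intro g hg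
    apply ha g
    funext i
    have h2 := congrFun hg i
    have h3 : ∑ s, (g s : ℚ) * (a s i : ℚ) = 0 := by
      rw [Finset.sum_apply] at h2
      refine Eq.trans (Finset.sum_congr rfl fun s _ => ?_) h2
      exact (zsmul_eq_mul (a s i : ℚ) (g s)).symm
    rw [Finset.sum_apply]
    simp only [Pi.smul_apply, smul_eq_mul, Pi.zero_apply]
    exact_mod_cast h3
  have h2 : LinearIndependent ℚ fun s => fun i => (a s i : ℚ) := (LinearIndependent.iff_fractionRing ℤ ℚ).1 h1
  let f : (Fin ρ → ℚ) →ₗ[ℚ] (Fin q → ℚ) := Fintype.linearCombination ℚ fun s => fun i => (a s i : ℚ)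
  have hf : LinearMap.ker f = ⊥ := by
    rw [LinearMap.ker_eq_bot]
    exact h2.fintypeLinearCombination_injective
  obtain ⟨g, hg⟩ := f.exists_leftInverse_of_injective hf
  have h3 : ∀ s s' : Fin ρ, ∑ j, (a s j : ℚ) * g (Pi.single j 1) s' = if s' = s then 1 else 0 := by
    intro s s'
    have h4 := congrFun (LinearMap.congr_fun hg (Pi.single s 1)) s'
    rw [LinearMap.comp_apply, LinearMap.id_apply, Pi.single_apply] at h4
    rw [← h4]
    have h5 : f (Pi.single s 1) = ∑ j, (a s j : ℚ) • (Pi.single j 1 : Fin q → ℚ) := by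
      rw [Fintype.linearCombination_apply_single]
      funext i
      simp [Finset.sum_apply, Pi.single_apply]
    rw [h5, map_sum, Finset.sum_apply]
    exact Finset.sum_congr rfl fun j _ => by rw [map_smul, Pi.smul_apply, smul_eq_mul]
  have h4 : ∀ s s' : Fin ρ, ∑ j, (a s j : K) * ((g (Pi.single j 1) s' : ℚ) : K) = if s' = s then 1 else 0 := by
    intro s s'
    have h5 := congrArg (fun x : ℚ => (x : K)) (h3 s s')
    push_cast at h5
    rw [h5]
    split_ifs <;> simp
  rw [Fintype.linearIndependent_iff]
  intro c hc s'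
  have h5 : ∀ j, ∑ s, c s * (a s j : K) = 0 := fun j => by
    have := congrFun hc j
    simpa [Finset.sum_apply] using this
  have h6 : ∑ j, (∑ s, c s * (a s j : K)) * ((g (Pi.single j 1) s' : ℚ) : K) = c s' := by
    simp only [Finset.sum_mul, mul_assoc]
    rw [Finset.sum_comm]
    simp only [← Finset.mul_sum, h4]
    simp
  rw [← h6]
  exact Finset.sum_eq_zero fun j _ => by rw [h5, zero_mul]

end Pool.Agent.CV
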